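import Mathlib

set_option autoImplicit false

/-!
# Unimodality of a Fibonacci-type polynomial sequence

`F_0 = F_1 = 1`, `F_s = (1 + q + 2 q²) F_{s-1} + q³ F_{s-2}`.  We prove that the coefficients of
every `F_s` are unimodal; for `s ≥ 4` they are even log-concave.

The multiplier `1 + q + 2 q²` is not log-concave, so log-concavity is proved by induction together
with an interlacing property of consecutive members: in the order `u ≤ v` iff
`u_k v_{k+1} ≥ u_{k+1} v_k` for all `k`, one has `F_s ≤ F_{s+1} ≤ q² F_s`.  The two identities `R1`,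
`R2` express the minors of `F_{s+2}` through mixed minors of consecutive members with mostly
positive signs; the one bad term `-(a_{k-1}² - a_k a_{k-2})` is absorbed with the help of the
linear inequality `a_{k-1} ≤ a_k + a_{k-2}`, i.e. `(1 - q + q²) F_s ≥ 0` for `s ≥ 2`.
-/

namespace Pool.Agent.Results.MP_dbd06c_co.Unimodality

open Polynomial

/-- The polynomials `F_s(q)`: `F_0 = F_1 = 1`, `F_s = (1 + q + 2 q²) F_{s-1} + q³ F_{s-2}`. -/
noncomputable def F : ℕ → Polynomial ℤ
  | 0 => 1
  | 1 => 1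
  | s + 2 => (1 + X + 2 * X ^ 2) * F (s + 1) + X ^ 3 * F s

/-- The coefficient sequence `(a_0, …, a_d)`, `d = deg P`, is unimodal: there is an index
`m ≤ d` with `a_0 ≤ a_1 ≤ … ≤ a_m ≥ a_{m+1} ≥ … ≥ a_d`. -/
def IsUnimodal (P : Polynomial ℤ) : Prop :=
  ∃ m ≤ P.natDegree, (∀ i, i < m → P.coeff i ≤ P.coeff (i + 1)) ∧
    ∀ i, m ≤ i → i < P.natDegree → P.coeff (i + 1) ≤ P.coeff i

/-- the coefficients of `F_s`, indexed by the integers -/
def f : ℕ → ℤ → ℤ
  | 0, k => if k = 0 then 1 else 0
  | 1, k => if k = 0 then 1 else 0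
  | s + 2, k => f (s + 1) k + f (s + 1) (k - 1) + 2 * f (s + 1) (k - 2) + f s (k - 3)

theorem f_succ (s : ℕ) (k : ℤ) :
    f (s + 2) k = f (s + 1) k + f (s + 1) (k - 1) + 2 * f (s + 1) (k - 2) + f s (k - 3) := rfl

theorem f_nonneg (s : ℕ) : ∀ k, 0 ≤ f s k := by
  induction s using Nat.twoStepInduction with
  | zero => intro k; unfold f; split_ifs <;> simp
  | one => intro k; unfold f; split_ifs <;> simp
  | more s h1 h2 =>
    intro k
    rw [f_succ]
    have := h1 (k - 3)
    have := h2 k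
    have := h2 (k - 1)
    have := h2 (k - 2)
    linarith

theorem f_neg (s : ℕ) : ∀ k, k < 0 → f s k = 0 := by
  induction s using Nat.twoStepInduction with
  | zero => intro k hk; unfold f; rw [if_neg (by omega)]
  | one => intro k hk; unfold f; rw [if_neg (by omega)]
  | more s h1 h2 =>
    intro k hk
    rw [f_succ, h1 _ (by omega), h2 _ (by omega), h2 _ (by omega), h2 _ (by omega)]
    rfl

theorem f_eq (s : ℕ) : ∀ n : ℕ, (F s).coeff n = f s n := by
  induction s using Nat.twoStepInduction with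
  | zero =>
    intro n
    unfold F f
    rw [coeff_one]
    norm_cast
  | one =>
    intro n
    unfold F f
    rw [coeff_one]
    norm_cast
  | more s h1 h2 =>
    intro n
    have hexp : F (s + 2) = F (s + 1) + X ^ 1 * F (s + 1) + 2 * (X ^ 2 * F (s + 1)) +
        X ^ 3 * F s := by
      rw [F]
      ring
    rw [hexp, f_succ]
    have h2' : (2 * (X ^ 2 * F (s + 1))).coeff n = 2 * (X ^ 2 * F (s + 1)).coeff n := by
      rw [← C_ofNat, coeff_C_mul]
    rw [coeff_add, coeff_add, coeff_add, h2', coeff_X_pow_mul', coeff_X_pow_mul',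
      coeff_X_pow_mul', h2]
    congr 1
    · congr 1
      · congr 1
        split_ifs with h
        · rw [h2]
          congr 1
          omega
        · rw [f_neg _ _ (by omega)]
      · congr 1
        split_ifs with h
        · rw [h2]
          congr 1
          omega
        · rw [f_neg _ _ (by omega)]
    · split_ifs with h
      · rw [h1]
        congr 1
        omega
      · rw [f_neg _ _ (by omega)]

theorem f_top (s : ℕ) : ∀ k : ℤ, 2 * s < k → f s k = 0 := by
  induction s using Nat.twoStepInduction with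
  | zero => intro k hk; unfold f; rw [if_neg (by omega)]
  | one => intro k hk; unfold f; rw [if_neg (by omega)]
  | more s h1 h2 =>
    intro k hk
    rw [f_succ, h1 _ (by push_cast at hk ⊢; omega), h2 _ (by push_cast at hk ⊢; omega),
      h2 _ (by push_cast at hk ⊢; omega), h2 _ (by push_cast at hk ⊢; omega)]
    rfl

/-- `1 - q + q²` times `F_s` has nonnegative coefficients for `s ≥ 2`. -/
theorem lin (s : ℕ) : ∀ k, f (s + 2) (k - 1) ≤ f (s + 2) k + f (s + 2) (k - 2) := by
  induction s using Nat.twoStepInduction with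
  | zero =>
    intro k
    rcases lt_or_ge k 0 with hk | hk
    · rw [f_neg _ _ hk, f_neg _ _ (show k - 1 < 0 by omega), f_neg _ _ (show k - 2 < 0 by omega)]
      rfl
    rcases lt_or_ge 6 k with hk' | hk'
    · rw [f_top _ _ (show 2 * ((0 + 2 : ℕ) : ℤ) < k by push_cast; omega),
        f_top _ _ (show 2 * ((0 + 2 : ℕ) : ℤ) < k - 1 by push_cast; omega),
        f_top _ _ (show 2 * ((0 + 2 : ℕ) : ℤ) < k - 2 by push_cast; omega)]
      rfl
    have key : ∀ k ∈ Finset.Icc (0 : ℤ) 6, f 2 (k - 1) ≤ f 2 k + f 2 (k - 2) := by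
      decide +kernel
    exact key k (Finset.mem_Icc.2 ⟨hk, hk'⟩)
  | one =>
    intro k
    rcases lt_or_ge k 0 with hk | hk
    · rw [f_neg _ _ hk, f_neg _ _ (show k - 1 < 0 by omega), f_neg _ _ (show k - 2 < 0 by omega)]
      rfl
    rcases lt_or_ge 8 k with hk' | hk'
    · rw [f_top _ _ (show 2 * ((1 + 2 : ℕ) : ℤ) < k by push_cast; omega),
        f_top _ _ (show 2 * ((1 + 2 : ℕ) : ℤ) < k - 1 by push_cast; omega),
        f_top _ _ (show 2 * ((1 + 2 : ℕ) : ℤ) < k - 2 by push_cast; omega)]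
      rfl
    have key : ∀ k ∈ Finset.Icc (0 : ℤ) 8, f 3 (k - 1) ≤ f 3 k + f 3 (k - 2) := by
      decide +kernel
    exact key k (Finset.mem_Icc.2 ⟨hk, hk'⟩)
  | more s h1 h2 =>
    intro k
    rw [f_succ (s + 2) k, f_succ (s + 2) (k - 1), f_succ (s + 2) (k - 2)]
    have e1 := h2 k
    have e2 := h2 (k - 1)
    have e3 := h2 (k - 2)
    have e4 := h1 (k - 3)
    rw [show s + 1 + 2 = s + 2 + 1 by rfl] at e1 e2 e3
    rw [show k - 1 - 1 = k - 2 by ring, show k - 1 - 2 = k - 3 by ring] at e2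
    rw [show k - 2 - 1 = k - 3 by ring, show k - 2 - 2 = k - 4 by ring] at e3
    rw [show k - 3 - 1 = k - 4 by ring, show k - 3 - 2 = k - 5 by ring] at e4
    rw [show k - 1 - 1 = k - 2 by ring, show k - 1 - 2 = k - 3 by ring,
      show k - 2 - 1 = k - 3 by ring, show k - 2 - 2 = k - 4 by ring,
      show k - 1 - 3 = k - 4 by ring, show k - 2 - 3 = k - 5 by ring]
    linarith

/-- two by two minors of the Toeplitz matrix of `F_s` -/
def A (s : ℕ) (k l : ℤ) : ℤ := f s k * f s l - f s (k - 1) * f s (l + 1)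

/-- mixed two by two minors of `F_{s+1}` and `F_s` -/
def N (s : ℕ) (i j : ℤ) : ℤ := f (s + 1) i * f s j - f (s + 1) (i + 1) * f s (j - 1)

theorem A_swap (s : ℕ) (k l : ℤ) : A s k l = -A s (l + 1) (k - 1) := by
  unfold A
  rw [show l + 1 - 1 = l by ring, show k - 1 + 1 = k by ring]
  ring

theorem R1 (s : ℕ) (i j : ℤ) :
    N (s + 1) i j = A (s + 1) j i + A (s + 1) j (i - 1) + 2 * A (s + 1) j (i - 2) -
      N s (j - 1) (i - 2) := by
  unfold N A
  rw [show s + 1 + 1 = s + 2 by rfl, f_succ s i, f_succ s (i + 1)]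
  rw [show i + 1 - 1 = i by ring, show i + 1 - 2 = i - 1 by ring, show i + 1 - 3 = i - 2 by ring,
    show i - 1 + 1 = i by ring, show i - 2 + 1 = i - 1 by ring, show j - 1 + 1 = j by ring,
    show i - 2 - 1 = i - 3 by ring]
  ring

theorem R2 (s : ℕ) (k l : ℤ) :
    A (s + 2) k l = N (s + 1) l k + N (s + 1) l (k - 1) + 2 * N (s + 1) l (k - 2) +
      N s l (k - 3) + N s (l - 1) (k - 3) + 2 * N s (l - 2) (k - 3) + A s (k - 3) (l - 3) := by
  unfold N A
  rw [show s + 1 + 1 = s + 2 by rfl, f_succ s k, f_succ s (k - 1), f_succ s l, f_succ s (l + 1)]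
  rw [show l + 1 - 1 = l by ring, show l + 1 - 2 = l - 1 by ring, show l + 1 - 3 = l - 2 by ring,
    show k - 1 - 1 = k - 2 by ring, show k - 1 - 2 = k - 3 by ring, show k - 1 - 3 = k - 4 by ring,
    show l - 1 + 1 = l by ring, show l - 2 + 1 = l - 1 by ring, show k - 2 - 1 = k - 3 by ring,
    show k - 3 - 1 = k - 4 by ring, show l - 3 + 1 = l - 2 by ring]
  ring

/-- generalised log-concavity -/
def LC (s : ℕ) : Prop := ∀ k l : ℤ, k ≤ l → 0 ≤ A s k l

/-- `F_{s+1}` is below `q² F_s` in the ratio order -/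
def Up (s : ℕ) : Prop := ∀ i j : ℤ, j < i → 0 ≤ N s i j

/-- `F_{s+1}` is above `F_s` in the ratio order -/
def Down (s : ℕ) : Prop := ∀ i j : ℤ, i < j → N s i j ≤ 0

theorem A_pred (s : ℕ) (k : ℤ) : A s k (k - 1) = 0 := by
  unfold A
  rw [show k - 1 + 1 = k by ring]
  ring

theorem down_step {s : ℕ} (hL : LC (s + 1)) (hU : Up s) : Down (s + 1) := by
  intro i j hij
  have key : ∀ m : ℤ, m ≤ i → A (s + 1) j m ≤ 0 := by
    intro m hm
    rcases eq_or_lt_of_le (show m + 1 ≤ j by omega) with h | h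
    · rw [show m = j - 1 by omega, A_pred]
    · rw [A_swap]
      have := hL (m + 1) (j - 1) (by omega)
      linarith
  rw [R1]
  have h1 := key i (le_refl _)
  have h2 := key (i - 1) (by omega)
  have h3 := key (i - 2) (by omega)
  have h4 := hU (j - 1) (i - 2) (by omega)
  linarith

theorem up_step {s : ℕ} (hL0 : LC s) (hL1 : LC (s + 1)) (hL2 : LC (s + 2)) (hU0 : Up s)
    (hU1 : Up (s + 1)) (hD0 : Down s) (hD1 : Down (s + 1)) : Up (s + 2) := by
  intro i j hij
  rw [R1]
  rcases eq_or_lt_of_le (show j + 1 ≤ i by omega) with h | h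
  · obtain rfl : j = i - 1 := by omega
    -- the delicate case `j = i - 1`
    have h1 : N (s + 1) (i - 1 - 1) (i - 2) ≤ A (s + 1) (i - 2) (i - 2) := by
      rw [show i - 1 - 1 = i - 2 by ring, R1]
      have e1 : A (s + 1) (i - 2) (i - 2 - 1) = 0 := A_pred _ _
      have e2 : A (s + 1) (i - 2) (i - 2 - 2) ≤ 0 := by
        rw [A_swap]
        have := hL1 (i - 2 - 2 + 1) (i - 2 - 1) (by omega)
        linarith
      have e3 := hU0 (i - 2 - 1) (i - 2 - 2) (by omega)
      linarith
    have h2 : 2 * A (s + 1) (i - 2) (i - 2) ≤ A (s + 2) (i - 1) i := by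
      rw [R2]
      have e1 := hU1 i (i - 1) (by omega)
      have e2 : 2 * A (s + 1) (i - 2) (i - 2) ≤ N (s + 1) i (i - 1 - 1) := by
        rw [R1, show i - 1 - 1 = i - 2 by ring]
        have e3 := hL1 (i - 2) i (by omega)
        have e4 := hL1 (i - 2) (i - 1) (by omega)
        have e5 := hD0 (i - 2 - 1) (i - 2) (by omega)
        linarith
      have e3 := hU1 i (i - 1 - 2) (by omega)
      have e4 := hU0 i (i - 1 - 3) (by omega)
      have e5 := hU0 (i - 1) (i - 1 - 3) (by omega)
      have e6 := hU0 (i - 2) (i - 1 - 3) (by omega)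
      have e7 := hL0 (i - 1 - 3) (i - 3) (by omega)
      linarith
    have h3 := hL1 (i - 2) (i - 2) (le_refl _)
    have h4 := hL2 (i - 1) (i - 1) (le_refl _)
    have h5 : A (s + 2) (i - 1) (i - 2) = 0 := by
      rw [show i - 2 = i - 1 - 1 by ring]
      exact A_pred _ _
    rw [show s + 1 + 1 = s + 2 by rfl, h5]
    linarith
  · have h1 := hL2 j i (by omega)
    have h2 := hL2 j (i - 1) (by omega)
    have h3 := hL2 j (i - 2) (by omega)
    have h4 := hD1 (j - 1) (i - 2) (by omega)
    rw [show s + 1 + 1 = s + 2 by rfl]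
    linarith

theorem diag_ineq {s : ℕ} (hL : LC (s + 2)) (k : ℤ) :
    A (s + 2) (k - 1) (k - 1) ≤ A (s + 2) (k - 1) k + A (s + 2) (k - 2) (k - 1) := by
  have h1 := hL (k - 1) k (by omega)
  have h2 := hL (k - 2) (k - 1) (by omega)
  have h3 := hL k k (le_refl _)
  have h4 := hL (k - 1) (k - 1) (le_refl _)
  have h5 := hL (k - 2) (k - 2) (le_refl _)
  have p0 := f_nonneg (s + 2) k
  have p1 := f_nonneg (s + 2) (k - 1)
  have p2 := f_nonneg (s + 2) (k - 2)
  have hlin := lin s k
  rcases eq_or_lt_of_le p1 with h | h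
  · have : A (s + 2) (k - 1) (k - 1) ≤ 0 := by
      unfold A
      rw [← h, show k - 1 - 1 = k - 2 by ring, show k - 1 + 1 = k by ring]
      nlinarith
    linarith
  · have key : f (s + 2) (k - 1) * (A (s + 2) (k - 1) k + A (s + 2) (k - 2) (k - 1)) =
        (f (s + 2) k + f (s + 2) (k - 2)) * A (s + 2) (k - 1) (k - 1) +
          f (s + 2) (k - 2) * A (s + 2) k k + f (s + 2) k * A (s + 2) (k - 2) (k - 2) := by
      unfold A
      rw [show k - 1 - 1 = k - 2 by ring, show k - 1 + 1 = k by ring,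
        show k - 2 + 1 = k - 1 by ring]
      ring
    have e1 : 0 ≤ f (s + 2) (k - 2) * A (s + 2) k k := mul_nonneg p2 h3
    have e2 : 0 ≤ f (s + 2) k * A (s + 2) (k - 2) (k - 2) := mul_nonneg p0 h5
    have e3 : f (s + 2) (k - 1) * A (s + 2) (k - 1) (k - 1) ≤
        (f (s + 2) k + f (s + 2) (k - 2)) * A (s + 2) (k - 1) (k - 1) :=
      mul_le_mul_of_nonneg_right hlin h4
    have e4 : f (s + 2) (k - 1) * A (s + 2) (k - 1) (k - 1) ≤
        f (s + 2) (k - 1) * (A (s + 2) (k - 1) k + A (s + 2) (k - 2) (k - 1)) := by linarith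
    exact le_of_mul_le_mul_left e4 h

theorem lc_step {s : ℕ} (hL0 : LC s) (hL1 : LC (s + 1)) (hL2 : LC (s + 2)) (hU0 : Up s)
    (hU1 : Up (s + 1)) (hU2 : Up (s + 2)) (hD1 : Down (s + 1)) : LC (s + 3) := by
  intro k l hkl
  rw [R2]
  rcases eq_or_lt_of_le hkl with h | h
  · subst h
    have a1 : N (s + 1 + 1) k k = A (s + 2) k k - 2 * A (s + 2) (k - 1) (k - 1) -
        N (s + 1) (k - 1) (k - 2) := by
      rw [R1]
      have e1 : A (s + 1 + 1) k (k - 1) = 0 := A_pred _ _
      have e2 : A (s + 1 + 1) k (k - 2) = - A (s + 2) (k - 1) (k - 1) := by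
        rw [A_swap, show k - 2 + 1 = k - 1 by ring]
      rw [e1, e2]
      ring
    have a2 : N (s + 1 + 1) k (k - 1) = A (s + 2) (k - 1) k + A (s + 2) (k - 1) (k - 1) -
        N (s + 1) (k - 2) (k - 2) := by
      rw [R1]
      have e1 : A (s + 1 + 1) (k - 1) (k - 2) = 0 := by
        rw [show k - 2 = k - 1 - 1 by ring]
        exact A_pred _ _
      rw [e1, show k - 1 - 1 = k - 2 by ring]
      ring
    have a3 : A (s + 2) (k - 2) (k - 1) + 2 * A (s + 2) (k - 2) (k - 2) ≤
        N (s + 1 + 1) k (k - 2) := by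
      rw [R1]
      have e1 := hL2 (k - 2) k (by omega)
      have e2 := hD1 (k - 2 - 1) (k - 2) (by omega)
      rw [show s + 1 + 1 = s + 2 by rfl]
      linarith
    have a4 : N (s + 1) (k - 1) (k - 2) ≤ A (s + 2) (k - 2) (k - 1) := by
      rw [R2]
      have e2 := hU1 (k - 1) (k - 2 - 1) (by omega)
      have e3 := hU1 (k - 1) (k - 2 - 2) (by omega)
      have e4 := hU0 (k - 1) (k - 2 - 3) (by omega)
      have e5 := hU0 (k - 1 - 1) (k - 2 - 3) (by omega)
      have e6 := hU0 (k - 1 - 2) (k - 2 - 3) (by omega)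
      have e7 := hL0 (k - 2 - 3) (k - 1 - 3) (by omega)
      linarith
    have a5 : N (s + 1) (k - 2) (k - 2) ≤ A (s + 2) (k - 2) (k - 2) := by
      rw [R2]
      have e2 := hU1 (k - 2) (k - 2 - 1) (by omega)
      have e3 := hU1 (k - 2) (k - 2 - 2) (by omega)
      have e4 := hU0 (k - 2) (k - 2 - 3) (by omega)
      have e5 := hU0 (k - 2 - 1) (k - 2 - 3) (by omega)
      have e6 := hU0 (k - 2 - 2) (k - 2 - 3) (by omega)
      have e7 := hL0 (k - 2 - 3) (k - 2 - 3) (by omega)
      linarith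
    have a6 := diag_ineq hL2 k
    have a7 := hL2 k k (le_refl _)
    have a8 := hL2 (k - 2) (k - 2) (le_refl _)
    have a9 := hL2 (k - 2) (k - 1) (by omega)
    have b1 := hU1 k (k - 3) (by omega)
    have b2 := hU1 (k - 1) (k - 3) (by omega)
    have b3 := hU1 (k - 2) (k - 3) (by omega)
    have b4 := hL1 (k - 3) (k - 3) (le_refl _)
    rw [a1, a2]
    linarith
  · have e1 := hU2 l k (by omega)
    have e2 := hU2 l (k - 1) (by omega)
    have e3 := hU2 l (k - 2) (by omega)
    have e4 := hU1 l (k - 3) (by omega)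
    have e5 := hU1 (l - 1) (k - 3) (by omega)
    have e6 := hU1 (l - 2) (k - 3) (by omega)
    have e7 := hL1 (k - 3) (l - 3) (by omega)
    rw [show s + 1 + 1 = s + 2 by rfl]
    linarith

/-- Outside a finite window the minors vanish. -/
theorem lc_of_window {s : ℕ}
    (h : ∀ k ∈ Finset.Icc (0 : ℤ) (2 * s), ∀ l ∈ Finset.Icc (0 : ℤ) (2 * s), k ≤ l →
      0 ≤ A s k l) : LC s := by
  intro k l hkl
  rcases lt_or_ge k 0 with hk | hk
  · unfold A
    rw [f_neg s k hk, f_neg s (k - 1) (by omega)]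
    simp
  rcases lt_or_ge (2 * (s : ℤ)) l with hl | hl
  · unfold A
    rw [f_top s l hl, f_top s (l + 1) (by omega)]
    simp
  exact h k (Finset.mem_Icc.2 ⟨hk, by omega⟩) l (Finset.mem_Icc.2 ⟨by omega, hl⟩) hkl

theorem up_of_window {s : ℕ}
    (h : ∀ i ∈ Finset.Icc (0 : ℤ) (2 * s + 2), ∀ j ∈ Finset.Icc (0 : ℤ) (2 * s + 2), j < i →
      0 ≤ N s i j) : Up s := by
  intro i j hij
  rcases lt_or_ge j 0 with hj | hj
  · unfold N
    rw [f_neg s j hj, f_neg s (j - 1) (by omega)]
    simp
  rcases lt_or_ge (2 * (s : ℤ) + 2) i with hi | hi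
  · unfold N
    rw [f_top (s + 1) i (by push_cast; omega), f_top (s + 1) (i + 1) (by push_cast; omega)]
    simp
  exact h i (Finset.mem_Icc.2 ⟨by omega, hi⟩) j (Finset.mem_Icc.2 ⟨hj, by omega⟩) hij

theorem down_of_window {s : ℕ}
    (h : ∀ i ∈ Finset.Icc (-1 : ℤ) (2 * s + 1), ∀ j ∈ Finset.Icc (-1 : ℤ) (2 * s + 1), i < j →
      N s i j ≤ 0) : Down s := by
  intro i j hij
  rcases lt_or_ge i (-1) with hi | hi
  · unfold N
    rw [f_neg (s + 1) i (by omega), f_neg (s + 1) (i + 1) (by omega)]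
    simp
  rcases lt_or_ge (2 * (s : ℤ) + 1) j with hj | hj
  · unfold N
    rw [f_top s j (by omega), f_top s (j - 1) (by omega)]
    simp
  exact h i (Finset.mem_Icc.2 ⟨hi, by omega⟩) j (Finset.mem_Icc.2 ⟨by omega, hj⟩) hij

theorem main_induction (t : ℕ) :
    LC (t + 4) ∧ LC (t + 5) ∧ LC (t + 6) ∧ Up (t + 4) ∧ Up (t + 5) ∧ Down (t + 4) ∧
      Down (t + 5) := by
  induction t with
  | zero =>
    refine ⟨lc_of_window ?_, lc_of_window ?_, lc_of_window ?_, up_of_window ?_, up_of_window ?_,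
      down_of_window ?_, down_of_window ?_⟩ <;> decide +kernel
  | succ t ih =>
    obtain ⟨l4, l5, l6, u4, u5, d4, d5⟩ := ih
    have d6 : Down (t + 6) := down_step l6 u5
    have u6 : Up (t + 6) := up_step l4 l5 l6 u4 u5 d4 d5
    have l7 : LC (t + 7) := lc_step l4 l5 l6 u4 u5 u6 d5
    refine ⟨?_, ?_, ?_, ?_, ?_, ?_, ?_⟩
    · rw [show t + 1 + 4 = t + 5 by ring]; exact l5
    · rw [show t + 1 + 5 = t + 6 by ring]; exact l6
    · rw [show t + 1 + 6 = t + 7 by ring]; exact l7
    · rw [show t + 1 + 4 = t + 5 by ring]; exact u5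
    · rw [show t + 1 + 5 = t + 6 by ring]; exact u6
    · rw [show t + 1 + 4 = t + 5 by ring]; exact d5
    · rw [show t + 1 + 5 = t + 6 by ring]; exact d6

/-- the coefficient sequence of `F_s` is log-concave for every `s ≥ 4` -/
theorem logConcave (s : ℕ) (hs : 4 ≤ s) (k : ℕ) :
    (F s).coeff k * (F s).coeff (k + 2) ≤ (F s).coeff (k + 1) ^ 2 := by
  obtain ⟨t, rfl⟩ : ∃ t, s = t + 4 := ⟨s - 4, by omega⟩
  have h := (main_induction t).1 (k + 1) (k + 1) (le_refl _)
  unfold A at h
  rw [f_eq, f_eq, f_eq]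
  push_cast
  rw [show (k : ℤ) + 1 - 1 = k by ring, show (k : ℤ) + 1 + 1 = k + 2 by ring] at h
  linarith

/-- generalised log-concavity implies unimodality -/
theorem unimodal_of_lc {s : ℕ} (h : LC s) : IsUnimodal (F s) := by
  classical
  by_cases hd : ∃ i, i < (F s).natDegree ∧ (F s).coeff (i + 1) < (F s).coeff i
  · -- the first strict descent
    let m := Nat.find hd
    have hm := Nat.find_spec hd
    refine ⟨m, hm.1.le, ?_, ?_⟩
    · intro i hi
      have := Nat.find_min hd hi
      by_contra hlt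
      exact this ⟨by have := hm.1; omega, by omega⟩
    · intro i hi _
      rcases eq_or_lt_of_le hi with rfl | hi'
      · exact hm.2.le
      · by_contra hlt
        have hlt' : (F s).coeff i < (F s).coeff (i + 1) := by omega
        have hA := h (m + 1) i (by exact_mod_cast hi')
        unfold A at hA
        have e1 : f s ((m : ℤ) + 1) = (F s).coeff (m + 1) := by rw [f_eq]; push_cast; rfl
        have e2 : f s ((m : ℤ) + 1 - 1) = (F s).coeff m := by
          rw [f_eq, show (m : ℤ) + 1 - 1 = m by ring]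
        have e3 : f s ((i : ℤ) + 1) = (F s).coeff (i + 1) := by rw [f_eq]; push_cast; rfl
        rw [e1, e2, e3, ← f_eq] at hA
        have p1 : 0 ≤ (F s).coeff (m + 1) := by rw [f_eq]; exact f_nonneg _ _
        have p2 : 0 ≤ (F s).coeff i := by rw [f_eq]; exact f_nonneg _ _
        have hm2 : (F s).coeff (m + 1) < (F s).coeff m := hm.2
        nlinarith
  · push Not at hd
    exact ⟨(F s).natDegree, le_refl _, fun i hi => hd i hi, fun i h1 h2 => absurd h2 (by omega)⟩

theorem natDegree_eq {s n : ℕ} (h1 : f s n ≠ 0) (h2 : ∀ k : ℤ, n < k → f s k = 0) :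
    (F s).natDegree = n := by
  apply le_antisymm
  · rw [natDegree_le_iff_coeff_eq_zero]
    intro k hk
    rw [f_eq]
    exact h2 k (by exact_mod_cast hk)
  · apply le_natDegree_of_ne_zero
    rw [f_eq]
    exact h1

theorem small_zero : IsUnimodal (F 0) := by
  refine ⟨0, Nat.zero_le _, fun i hi => absurd hi (by omega), ?_⟩
  intro i _ hi
  rw [F, natDegree_one] at hi
  omega

theorem small_one : IsUnimodal (F 1) := by
  refine ⟨0, Nat.zero_le _, fun i hi => absurd hi (by omega), ?_⟩
  intro i _ hi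
  rw [F, natDegree_one] at hi
  omega

theorem small_two : IsUnimodal (F 2) := by
  have hdeg : (F 2).natDegree = 3 := by
    apply natDegree_eq
    · decide +kernel
    · intro k hk
      rcases lt_or_ge 4 k with h | h
      · exact f_top 2 k (by push_cast; omega)
      · obtain rfl : k = 4 := by push_cast at hk; omega
        decide +kernel
  refine ⟨2, by omega, ?_, ?_⟩
  · intro i hi
    rw [f_eq, f_eq]
    interval_cases i <;> decide +kernel
  · intro i hi hi'
    rw [hdeg] at hi'
    rw [f_eq, f_eq]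
    interval_cases i
    decide +kernel

theorem small_three : IsUnimodal (F 3) := by
  have hdeg : (F 3).natDegree = 5 := by
    apply natDegree_eq
    · decide +kernel
    · intro k hk
      rcases lt_or_ge 6 k with h | h
      · exact f_top 3 k (by push_cast; omega)
      · obtain rfl : k = 6 := by push_cast at hk; omega
        decide +kernel
  refine ⟨3, by omega, ?_, ?_⟩
  · intro i hi
    rw [f_eq, f_eq]
    interval_cases i <;> decide +kernel
  · intro i hi hi'
    rw [hdeg] at hi'
    rw [f_eq, f_eq]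
    interval_cases i <;> decide +kernel

/-- **Unimodality.**  For every `s ≥ 0` the coefficient sequence of `F_s(q)` is unimodal. -/
theorem result (s : ℕ) : IsUnimodal (F s) := by
  rcases lt_or_ge s 4 with h | h
  · interval_cases s
    · exact small_zero
    · exact small_one
    · exact small_two
    · exact small_three
  · obtain ⟨t, rfl⟩ : ∃ t, s = t + 4 := ⟨s - 4, by omega⟩
    exact unimodal_of_lc (main_induction t).1

end Pool.Agent.Results.MP_dbd06c_co.Unimodality
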